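import Pool.Agent.Lib.MP_b6294e_fr.Cyc
import Pool.Agent.Lib.MP_b6294e.Dominant

/-!
# Zariski dense orbits for triangular rational maps with free critical orbits in the fibres

A triangular rational map of affine `N`-space has components
`x_i ↦ a_i(x_0, …, x_{i-1}; x_i) / b_i(x_0, …, x_{i-1}; x_i)`.
Here `a_i` and `b_i` are polynomials in the last variable `x_i` whose coefficients are
polynomials in the previous coordinates. The ground field is an algebraic closure of the
field of rational numbers. The fibre map number `i` may be an arbitrary rational function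
of `x_i` as soon as, over some unramified cycle in the earlier coordinates, one of its critical
points is not strictly preperiodic.
-/

namespace Pool.Agent.Results.MP_b6294e_ag.FreeFibres

open MvPolynomial Pool.Agent.MP_b6294e Pool.Agent.MP_b6294e_ht Pool.Agent.MP_b6294e_fr

universe u

/-- A polynomial in the `i`-th coordinate whose coefficients are polynomials in the coordinates
before it: its coefficients are evaluated at the point `x`. -/
noncomputable def fibre {K A : Type*} [CommRing K] [CommRing A] [Algebra K A] {N : ℕ}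
    (x : Fin N → A) (i : Fin N) (f : Polynomial (MvPolynomial (Fin i) K)) : Polynomial A :=
  f.map (aeval (R := K) (fun j : Fin i => x ⟨j, j.2.trans i.2⟩) : MvPolynomial (Fin i) K →+* A)

/-- The value at the point `x` of a polynomial in the `i`-th coordinate whose coefficients are
polynomials in the coordinates before it. -/
noncomputable def value {K A : Type*} [CommRing K] [CommRing A] [Algebra K A] {N : ℕ}
    (x : Fin N → A) (i : Fin N) (f : Polynomial (MvPolynomial (Fin i) K)) : A :=
  (fibre x i f).eval (x i)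

/-- The numerator `a' b - a b'` of the derivative of the fibre map `a / b`. -/
noncomputable def derivNumerator {S : Type*} [CommRing S] (a b : Polynomial S) : Polynomial S :=
  Polynomial.derivative a * b - a * Polynomial.derivative b

/-- The degree of the fibre map `y ↦ a(y) / b(y)`. -/
def fibreDegree {S : Type*} [CommRing S] (a b : Polynomial S) : ℕ :=
  max a.natDegree b.natDegree

/-- Condition on the fibre map `y ↦ a(y) / b(y)`: either the degree of `a` is at least the degree
of `b` plus two (and `b` is not zero), or `a / b` is an invertible fractional linear map. -/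
def SlowFibre {S : Type*} [CommRing S] (a b : Polynomial S) : Prop :=
  (b ≠ 0 ∧ b.natDegree + 2 ≤ a.natDegree) ∨
    (a.natDegree ≤ 1 ∧ b.natDegree ≤ 1 ∧ a.coeff 1 * b.coeff 0 ≠ a.coeff 0 * b.coeff 1)

/-- The polynomials `a i`, `b i` are coprime over the field of rational functions in the earlier
coordinates, the fibre map `a i / b i` has degree at least two, and this degree is larger than
the degrees of all earlier fibre maps. -/
def FastFibre {K : Type*} [Field K] {N : ℕ}
    (a b : ∀ i : Fin N, Polynomial (MvPolynomial (Fin i) K)) (i : Fin N) : Prop :=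
  IsCoprime
    ((a i).map (algebraMap (MvPolynomial (Fin i) K) (FractionRing (MvPolynomial (Fin i) K))))
    ((b i).map (algebraMap (MvPolynomial (Fin i) K) (FractionRing (MvPolynomial (Fin i) K)))) ∧
  2 ≤ fibreDegree (a i) (b i) ∧
  ∀ j : Fin N, j < i → fibreDegree (a j) (b j) < fibreDegree (a i) (b i)

/-- The fibre map number `i` is not constant, and there is an orbit `x 0, x 1, …` of the map in
the coordinates up to `i` such that the earlier coordinates form a cycle of length `p` at which
the map in these coordinates is unramified, such that the coordinate `i` of `x 0` is a critical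
point of the fibre map, and such that this critical point is periodic or wandering: the coordinate
`i` of `x t` has period `p`, or its values at the multiples of `p` are pairwise different and over
the cycle `a i` and `b i` are coprime and the degree of `b i` is smaller than that of `a i`. -/
def FreeFibre {K : Type*} [Field K] {N : ℕ}
    (a b : ∀ i : Fin N, Polynomial (MvPolynomial (Fin i) K)) (i : Fin N) : Prop :=
  derivNumerator (a i) (b i) ≠ 0 ∧
  ∃ (p : ℕ) (x : ℕ → Fin N → K), 0 < p ∧
    (∀ t, ∀ j < i, x (t + p) j = x t j) ∧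
    (∀ t, ∀ j ≤ i, value (x t) j (b j) ≠ 0 ∧
      x (t + 1) j = value (x t) j (a j) / value (x t) j (b j)) ∧
    (∀ t, ∀ j < i, value (x t) j (derivNumerator (a j) (b j)) ≠ 0) ∧
    value (x 0) i (derivNumerator (a i) (b i)) = 0 ∧
    ((∀ t, x (t + p) i = x t i) ∨
      ((Function.Injective fun m : ℕ => x (p * m) i) ∧
        ∀ t, IsCoprime (fibre (x t) i (a i)) (fibre (x t) i (b i)) ∧
          (fibre (x t) i (b i)).natDegree < (fibre (x t) i (a i)).natDegree))

/-- The components of the triangular map as elements of the rational function field. -/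
noncomputable def component {K : Type*} [Field K] {N : ℕ}
    (a b : ∀ i : Fin N, Polynomial (MvPolynomial (Fin i) K)) (i : Fin N) :
    FractionRing (MvPolynomial (Fin N) K) :=
  value (fun j => algebraMap (MvPolynomial (Fin N) K) (FractionRing (MvPolynomial (Fin N) K)) (X j))
      i (a i) /
    value (fun j => algebraMap (MvPolynomial (Fin N) K) (FractionRing (MvPolynomial (Fin N) K))
      (X j)) i (b i)

/-- The triangular map has no nonconstant invariant rational function `P / Q`. -/
def NoInvariantFunction {K : Type*} [Field K] {N : ℕ}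
    (a b : ∀ i : Fin N, Polynomial (MvPolynomial (Fin i) K)) : Prop :=
  ∀ P Q : MvPolynomial (Fin N) K, Q ≠ 0 →
    aeval (component a b) P * algebraMap _ (FractionRing (MvPolynomial (Fin N) K)) Q =
      algebraMap _ (FractionRing (MvPolynomial (Fin N) K)) P * aeval (component a b) Q →
    ∃ c : K, P = C c * Q

/-- Let `K` be an algebraic closure of the field of rational numbers and let `Φ` be a triangular
rational map of affine `N`-space over `K` each of whose fibre maps is slow, fast or free. If `Φ`
has no nonconstant invariant rational function, then for every nonzero polynomial `G` there is a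
point whose orbit under `Φ` is well defined, avoids the hypersurface `G = 0` and is Zariski
dense. -/
theorem result (K : Type u) [Field K] [IsAlgClosed K] [CharZero K]
    (halg : Algebra.IsAlgebraic ℚ K) (N : ℕ)
    (a b : ∀ i : Fin N, Polynomial (MvPolynomial (Fin i) K))
    (hab : ∀ i, SlowFibre (a i) (b i) ∨ FastFibre a b i ∨ FreeFibre a b i)
    (hinv : NoInvariantFunction a b) (G : MvPolynomial (Fin N) K) (hG : G ≠ 0) :
    ∃ x : ℕ → Fin N → K,
      (∀ t i, value (x t) i (b i) ≠ 0 ∧
        x (t + 1) i = value (x t) i (a i) / value (x t) i (b i)) ∧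
      (∀ t, eval (x t) G ≠ 0) ∧
      ∀ Q : MvPolynomial (Fin N) K, (∀ t, eval (x t) Q = 0) → Q = 0 := by
  classical
  rcases N with _ | n₀
  · refine ⟨fun _ i => i.elim0, fun t i => i.elim0, fun t h0 => ?_, fun Q hQ => ?_⟩
    · apply hG
      rw [eq_C_of_isEmpty G] at h0 ⊢
      rw [eval_C] at h0
      rw [h0, C_0]
    · have h0 := hQ 0
      rw [eq_C_of_isEmpty Q] at h0 ⊢
      rw [eval_C] at h0
      rw [h0, C_0]
  let a' : ∀ i : ℕ, Polynomial (MvPolynomial (Fin i) K) := fun i =>
    if h : i < (n₀ + 1) then a ⟨i, h⟩ else 0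
  let b' : ∀ i : ℕ, Polynomial (MvPolynomial (Fin i) K) := fun i =>
    if h : i < (n₀ + 1) then b ⟨i, h⟩ else 0
  have ha' : ∀ i : Fin (n₀ + 1), a' i = a i := fun i => dif_pos i.2
  have hb' : ∀ i : Fin (n₀ + 1), b' i = b i := fun i => dif_pos i.2
  have h0 : ∀ i, (n₀ + 1) ≤ i → a' i = 0 ∧ b' i = 0 := fun i hi =>
    ⟨dif_neg (not_lt.mpr hi), dif_neg (not_lt.mpr hi)⟩
  have hfib : ∀ {A : Type u} [CommRing A] [Algebra K A] (x : Fin (n₀ + 1) → A) (x' : ℕ → A)
      (_ : ∀ i : Fin (n₀ + 1), x' i = x i) (i : Fin (n₀ + 1))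
      (f : Polynomial (MvPolynomial (Fin i) K)),
      fibre x i f = f.map (E (R := K) x' i : MvPolynomial (Fin i) K →+* A) := by
    intro A _ _ x x' hx i f
    unfold fibre E
    congr 3
    funext j
    exact (hx ⟨j, j.2.trans i.2⟩).symm
  have hval : ∀ {A : Type u} [CommRing A] [Algebra K A] (x : Fin (n₀ + 1) → A) (x' : ℕ → A)
      (_ : ∀ i : Fin (n₀ + 1), x' i = x i) (i : Fin (n₀ + 1))
      (f : Polynomial (MvPolynomial (Fin i) K)),
      value x i f = EP (R := K) x' i f (x' i) := by
    intro A _ _ x x' hx i f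
    unfold value EP
    rw [hx i, hfib x x' hx]
  have hab' : ∀ i < (n₀ + 1), CondT a' b' i := by
    intro i hi
    have h1 : a' i = a ⟨i, hi⟩ := dif_pos hi
    have h2 : b' i = b ⟨i, hi⟩ := dif_pos hi
    rcases hab ⟨i, hi⟩ with h | ⟨h3, h4, h5⟩ | ⟨hd, p, x, hp, hper, hor, hun, hcr, hpw⟩
    · left
      rw [h1, h2]
      exact h
    · right
      left
      refine ⟨halg, ?_, fun j hj => ?_⟩
      · rw [h1, h2]
        exact ⟨h3, h4⟩
      · have h6 : a' j = a ⟨j, hj.trans hi⟩ := dif_pos (hj.trans hi)
        have h7 : b' j = b ⟨j, hj.trans hi⟩ := dif_pos (hj.trans hi)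
        rw [h1, h2, h6, h7]
        exact h5 ⟨j, hj.trans hi⟩ hj
    · right
      right
      let x' : ℕ → ℕ → K := fun t j => if h : j < (n₀ + 1) then x t ⟨j, h⟩ else 0
      have hx' : ∀ t, ∀ j : Fin (n₀ + 1), x' t j = x t j := fun t j => dif_pos j.2
      have hb1 : ∀ t, ∀ j < i + 1, EP (R := K) (x' t) j (b' j) (x' t j) ≠ 0 := by
        intro t j hj
        have hj' : j < n₀ + 1 := by omega
        have h3 := (hor t ⟨j, hj'⟩ (Fin.mk_le_mk.mpr (by omega))).1
        rw [hval (x t) (x' t) (hx' t), ← hb'] at h3
        exact h3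
      have hs1 : ∀ t, ∀ j < i + 1, EP (R := K) (x' t) j (b' j) (x' t j) * x' (t + 1) j =
          EP (R := K) (x' t) j (a' j) (x' t j) := by
        intro t j hj
        have hj' : j < n₀ + 1 := by omega
        have h3 := (hor t ⟨j, hj'⟩ (Fin.mk_le_mk.mpr (by omega))).2
        rw [hval (x t) (x' t) (hx' t), hval (x t) (x' t) (hx' t), ← hb', ← ha'] at h3
        have h4 : x' (t + 1) j = x (t + 1) ⟨j, hj'⟩ := dif_pos hj'
        rw [h4, h3]
        exact mul_div_cancel₀ _ (hb1 t j hj)
      have hw1 : ∀ t, ∀ j < i, EP (R := K) (x' t) j (wr (a' j) (b' j)) (x' t j) ≠ 0 := by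
        intro t j hj
        have hj' : j < n₀ + 1 := by omega
        have h3 := hun t ⟨j, hj'⟩ (Fin.mk_lt_mk.mpr hj)
        rw [hval (x t) (x' t) (hx' t), ← hb', ← ha'] at h3
        exact h3
      have hcr1 : EP (R := K) (x' 0) i (wr (a' i) (b' i)) (x' 0 i) = 0 := by
        have h3 := hcr
        rw [hval (x 0) (x' 0) (hx' 0), ← hb', ← ha'] at h3
        exact h3
      have hper1 : ∀ t, ∀ j < i, x' (t + p) j = x' t j := by
        intro t j hj
        have hj' : j < n₀ + 1 := by omega
        have h3 : ∀ t, x' t j = x t ⟨j, hj'⟩ := fun t => dif_pos hj'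
        rw [h3, h3]
        exact hper t ⟨j, hj'⟩ (Fin.mk_lt_mk.mpr hj)
      have hxi : ∀ t, x' t i = x t ⟨i, hi⟩ := fun t => dif_pos hi
      refine ⟨?_, ?_, ?_⟩
      · intro h3
        have h4 := hb1 0 i (Nat.lt_succ_self i)
        rw [h3] at h4
        apply h4
        unfold EP
        rw [Polynomial.map_zero, Polynomial.eval_zero]
      · rw [h1, h2]
        exact hd
      · rcases hpw with hpw | ⟨hinj, hcd⟩
        · refine freeK_of_cycle a' b' i p hp x' ?_ hb1 hs1 hw1 hcr1
          intro t j hj
          rcases Nat.lt_succ_iff_lt_or_eq.mp hj with h | h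
          · exact hper1 t j h
          · rw [h, hxi, hxi]
            exact hpw t
        · refine freeK_of_wandering halg a' b' i p hp x' hper1 hb1 hs1 hw1 hcr1 ?_ ?_ ?_
          · simp only [hxi]
            exact hinj
          · intro t
            have h3 := (hcd t).1
            rw [hfib (x t) (x' t) (hx' t), hfib (x t) (x' t) (hx' t), ← ha', ← hb'] at h3
            exact h3
          · intro t
            have h3 := (hcd t).2
            rw [hfib (x t) (x' t) (hx' t), hfib (x t) (x' t) (hx' t), ← ha', ← hb'] at h3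
            exact h3
  have hcx : ∀ i : Fin (n₀ + 1), cx K (n₀ + 1) i =
      algebraMap (MvPolynomial (Fin (n₀ + 1)) K)
        (FractionRing (MvPolynomial (Fin (n₀ + 1)) K)) (X i) := by
    intro i
    unfold cx cA
    rw [dif_pos i.2]
  obtain ⟨σ, hσ⟩ := exists_pullback (n₀ + 1) a' b' (fun i hi => b_neT (hab' i hi))
    (fun i hi => wr_neT (hab' i hi))
  have hcomp : ∀ i : Fin (n₀ + 1),
      σ (algebraMap (MvPolynomial (Fin (n₀ + 1)) K) (FF K (n₀ + 1)) (X i)) =
      component a b i := by
    intro i
    rw [← hcx i, hσ i i.2]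
    unfold component
    rw [hval _ (cx K (n₀ + 1)) (fun j => hcx j), hval _ (cx K (n₀ + 1)) (fun j => hcx j), ha', hb']
  have hσA : ∀ P : MvPolynomial (Fin (n₀ + 1)) K, σ (algebraMap _ (FF K (n₀ + 1)) P) =
      aeval (component a b) P := by
    intro P
    have h1 : σ.comp ((Algebra.ofId (MvPolynomial (Fin (n₀ + 1)) K)
        (FF K (n₀ + 1))).restrictScalars K) = aeval (component a b) := by
      apply algHom_ext
      intro i
      rw [aeval_X]
      exact hcomp i
    exact DFunLike.congr_fun h1 P
  have hfix : ∀ h, σ h = h → ∃ c : K, h = algebraMap K (FF K (n₀ + 1)) c := by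
    intro h hh
    obtain ⟨P, Q, hQ, rfl⟩ := IsFractionRing.div_surjective (A := MvPolynomial (Fin (n₀ + 1)) K) h
    have hQ0 : Q ≠ 0 := nonZeroDivisors.ne_zero hQ
    have hQ' : algebraMap _ (FF K (n₀ + 1)) Q ≠ 0 := by
      rw [Ne, map_eq_zero_iff _ (IsFractionRing.injective _ (FF K (n₀ + 1)))]
      exact hQ0
    have hQ'' : σ (algebraMap _ (FF K (n₀ + 1)) Q) ≠ 0 := (map_ne_zero σ).mpr hQ'
    rw [map_div₀, div_eq_div_iff hQ'' hQ', hσA, hσA] at hh
    obtain ⟨c, hc⟩ := hinv P Q hQ0 hh
    refine ⟨c, ?_⟩
    rw [div_eq_iff hQ', hc, map_mul]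
    congr 1
  have hX : ∀ i < (n₀ + 1), σ (cx K (n₀ + 1) i) *
      EP (R := K) (cx K (n₀ + 1)) i (b' i) (cx K (n₀ + 1) i) =
      EP (R := K) (cx K (n₀ + 1)) i (a' i) (cx K (n₀ + 1) i) := by
    intro i hi
    rw [hσ i hi, div_mul_cancel₀ _ (EP_cx_ne_zero hi _ (b_neT (hab' i hi)))]
  obtain ⟨α, hα1, hα2, hα3⟩ := main_T n₀ (n₀ + 1) rfl a' b' h0 hab' σ hX hfix G hG
  refine ⟨fun t i => (Phi a' b')^[t] α i, fun t i => ?_, hα2, hα3⟩
  have h1 := hα1 t i i.2
  rw [hval _ ((Phi a' b')^[t] α) (fun _ => rfl), hval _ ((Phi a' b')^[t] α) (fun _ => rfl),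
    ← ha', ← hb']
  refine ⟨h1, ?_⟩
  change (Phi a' b')^[t + 1] α i = _
  rw [Function.iterate_succ_apply', Phi_apply]

end Pool.Agent.Results.MP_b6294e_ag.FreeFibres
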