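import Pool.Agent.Lib.MP_b6294e_pw.Main

/-!
# Zariski dense orbits for rational maps with power leading forms

Give the coordinates of affine `N`-space arbitrary integer weights. We consider rational maps
`x_i ↦ P_i / Q_i` such that `Q_i` has exactly one monomial of largest weight, say `x ^ β_i`, and
`P_i` has exactly one monomial of largest weight, namely `x ^ β_i * x_i ^ d`, with the same
`d ≥ 2` for all `i`.
-/

namespace Pool.Agent.Results.MP_b6294e_ag.PowerLeadingForms

open MvPolynomial

/-- The weight of a monomial with exponents `m`, when the coordinate `i` has weight `w i`. -/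
def weight {N : ℕ} (w : Fin N → ℤ) (m : Fin N →₀ ℕ) : ℤ := ∑ i, w i * m i

/-- The monomial `m` occurs in `P`, and every other monomial of `P` has smaller weight. -/
def HasTopMonomial {K : Type*} [Field K] {N : ℕ} (w : Fin N → ℤ) (P : MvPolynomial (Fin N) K)
    (m : Fin N →₀ ℕ) : Prop :=
  P.coeff m ≠ 0 ∧ ∀ m' ∈ P.support, m' ≠ m → weight w m' < weight w m

/-- Let `K` be an algebraically closed field of characteristic zero, `d ≥ 2`, and let `w` be
arbitrary integer weights of the coordinates of affine `N`-space. Let `Φ = (P_i / Q_i)_i` be a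
rational self-map of affine `N`-space such that `x ^ β_i` is the unique monomial of `Q_i` of
largest weight and `x ^ β_i * x_i ^ d` is the unique monomial of `P_i` of largest weight. Then
there is a point whose orbit under `Φ` is well defined and Zariski dense. -/
theorem result (K : Type*) [Field K] [IsAlgClosed K] [CharZero K] (N d : ℕ) (hd : 2 ≤ d)
    (w : Fin N → ℤ) (P Q : Fin N → MvPolynomial (Fin N) K) (β : Fin N → Fin N →₀ ℕ)
    (hQ : ∀ i, HasTopMonomial w (Q i) (β i))
    (hP : ∀ i, HasTopMonomial w (P i) (β i + Finsupp.single i d)) :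
    ∃ x : ℕ → Fin N → K,
      (∀ n i, eval (x n) (Q i) ≠ 0 ∧ x (n + 1) i = eval (x n) (P i) / eval (x n) (Q i)) ∧
      ∀ R : MvPolynomial (Fin N) K, (∀ n, eval (x n) R = 0) → R = 0 := by
  refine Pool.Agent.MP_b6294e.Pw.exists_dense_orbit hd w P Q β (fun i => (hQ i).1)
    (fun i m hm hne => (hQ i).2 m hm hne) (fun i => (hP i).1) (fun i m hm hne => ?_)
  have h1 := (hP i).2 m hm hne
  have h2 : weight w (β i + Finsupp.single i d) = weight w (β i) + d * w i := by
    have h3 : weight w (Finsupp.single i d) = d * w i := by
      unfold weight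
      rw [Finset.sum_eq_single i]
      · rw [Finsupp.single_eq_same]
        ring
      · intro j _ hj
        rw [Finsupp.single_eq_of_ne hj]
        simp
      · intro h
        exact absurd (Finset.mem_univ i) h
    rw [← h3]
    unfold weight
    rw [← Finset.sum_add_distrib]
    refine Finset.sum_congr rfl fun j _ => ?_
    rw [Finsupp.add_apply]
    push_cast
    ring
  rw [h2] at h1
  exact h1

end Pool.Agent.Results.MP_b6294e_ag.PowerLeadingForms
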