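import Pool.Agent.Lib.MP_b6294e_wc.Main3

/-!
# Zariski dense orbits for rational skew products of dimension two

The ground field `K` is an algebraic closure of the field of rational numbers. The map is
`Φ (x, y) = (a₀(x) / b₀(x), a₁(x, y) / b₁(x, y))`; the base map `a₀ / b₀` has degree at least two
in `x`, the fibre map `a₁ / b₁` has degree at least two in `y`. The base map has a critical point
on the projective line which is not strictly preperiodic.

Points of a projective line are given by homogeneous coordinates, that is by nonzero elements of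
`K × K`. A rational function of `x` is evaluated there with the help of forms in two variables.
-/

set_option linter.style.haveILetI false

namespace Pool.Agent.Results.MP_b6294e_ag.RationalSkewProducts

open Polynomial

universe u

variable {K : Type u} [Field K]

/-- Value at `P` of the form of degree `e` in two variables with dehomogenization `q`: the
sum of the `q_i P₁ ^ i P₂ ^ (e - i)`, `i ≤ e`. -/
noncomputable def form (e : ℕ) (q : K[X]) (P : K × K) : K :=
  ∑ i ∈ Finset.range (e + 1), q.coeff i * P.1 ^ i * P.2 ^ (e - i)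

/-- The homogeneous coordinates `P` and `Q` define the same point of the projective line. -/
def Same (P Q : K × K) : Prop := P.1 * Q.2 = Q.1 * P.2

/-- The degree of the rational function `a / b`, for coprime `a` and `b`. -/
def deg {S : Type u} [CommRing S] (a b : S[X]) : ℕ := max a.natDegree b.natDegree

/-- The map `a / b` on the projective line, in homogeneous coordinates. -/
noncomputable def lineMap (a b : K[X]) (P : K × K) : K × K :=
  (form (deg a b) a P, form (deg a b) b P)

/-- The degree in `x` of the pair `a`, `b` of polynomials in `x` and `y`. -/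
noncomputable def xDegree (a b : K[X][X]) : ℕ :=
  (a.support ∪ b.support).sup fun j => max (a.coeff j).natDegree (b.coeff j).natDegree

/-- The polynomial `f` in `x` and `y`, over the point `P` of the base: its coefficients are
homogenized with degree `m`. It is a polynomial in `y`. -/
noncomputable def fibreOver (m : ℕ) (f : K[X][X]) (P : K × K) : K[X] :=
  ∑ j ∈ Finset.range (f.natDegree + 1), monomial j (form m (f.coeff j) P)

/-- The skew product `(P, Q) ↦ (a₀ / b₀ (P), a₁ / b₁ (P, Q))` in homogeneous coordinates. -/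
noncomputable def skew (a₀ b₀ : K[X]) (a₁ b₁ : K[X][X]) (z : (K × K) × (K × K)) :
    (K × K) × (K × K) :=
  (lineMap a₀ b₀ z.1,
    (form (deg a₁ b₁) (fibreOver (xDegree a₁ b₁) a₁ z.1) z.2,
      form (deg a₁ b₁) (fibreOver (xDegree a₁ b₁) b₁ z.1) z.2))

/-- The point `P` is a critical point of `a / b`: the form of degree `2 * deg - 2` with
dehomogenization `a' * b - a * b'` vanishes there. -/
def Critical (a b : K[X]) (P : K × K) : Prop :=
  form (2 * deg a b - 2) (derivative a * b - a * derivative b) P = 0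

/-- The point `P` is periodic for `a / b`. -/
def Periodic (a b : K[X]) (P : K × K) : Prop :=
  ∃ n, 0 < n ∧ Same P ((lineMap a b)^[n] P)

/-- The point `P` has a finite orbit for `a / b`. -/
def Preperiodic (a b : K[X]) (P : K × K) : Prop :=
  ∃ i j, i < j ∧ Same ((lineMap a b)^[i] P) ((lineMap a b)^[j] P)

/-- The fibre over `P` is contracted: over `P` the polynomials `a` and `b` are linearly
dependent, so that `a / b` is constant or not defined on the fibre. -/
def Contracted (a b : K[X][X]) (P : K × K) : Prop :=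
  ∃ u v : K, (u ≠ 0 ∨ v ≠ 0) ∧
    C u * fibreOver (xDegree a b) a P = C v * fibreOver (xDegree a b) b P

/-! ### Comparison with the definitions of the library -/

theorem dependent_of_wr [CharZero K] (a b : K[X])
    (h : derivative a * b - a * derivative b = 0) :
    ∃ u v : K, (u ≠ 0 ∨ v ≠ 0) ∧ C u * a = C v * b := by
  classical
  by_cases hb : b = 0
  · exact ⟨0, 1, Or.inr one_ne_zero, by rw [hb, C_0, zero_mul, mul_zero]⟩
  set g := EuclideanDomain.gcd a b with hg
  have hg0 : g ≠ 0 := fun h0 => hb (EuclideanDomain.gcd_eq_zero_iff.mp h0).2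
  obtain ⟨a', ha'⟩ := EuclideanDomain.gcd_dvd_left a b
  obtain ⟨b', hb'⟩ := EuclideanDomain.gcd_dvd_right a b
  rw [← hg] at ha' hb'
  have hco : IsCoprime a' b' := by
    obtain ⟨r, s, h1⟩ : ∃ r s, g = a * r + b * s := ⟨_, _, EuclideanDomain.gcd_eq_gcd_ab a b⟩
    refine ⟨r, s, mul_left_cancel₀ hg0 ?_⟩
    rw [mul_one]
    linear_combination - h1 - r * ha' - s * hb'
  have h2 : g ^ 2 * (derivative a' * b' - a' * derivative b') = 0 := by
    rw [ha', hb', derivative_mul, derivative_mul] at h
    linear_combination h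
  have h3 : derivative a' * b' - a' * derivative b' = 0 :=
    (mul_eq_zero.mp h2).resolve_left (pow_ne_zero 2 hg0)
  have h4 : wronskian a' b' = 0 := by
    rw [wronskian]
    linear_combination - h3
  obtain ⟨h5, h6⟩ := hco.wronskian_eq_zero_iff.mp h4
  have h7 := eq_C_of_natDegree_eq_zero (derivative_eq_zero.mp h5)
  have h8 := eq_C_of_natDegree_eq_zero (derivative_eq_zero.mp h6)
  refine ⟨b'.coeff 0, a'.coeff 0, Or.inl ?_, ?_⟩
  · intro h0
    rw [h0, C_0] at h8
    rw [h8, mul_zero] at hb'
    exact hb hb'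
  · rw [← h7, ← h8, ha', hb']
    ring

theorem porb_eq (a b : K[X]) (P : K × K) (t : ℕ) :
    Pool.Agent.MP_b6294e_wc.porb a b P t = (lineMap a b)^[t] P := by
  induction t with
  | zero => rfl
  | succ t ih =>
    rw [Function.iterate_succ_apply', ← ih]
    rfl

theorem skew_fst (a₀ b₀ : K[X]) (a₁ b₁ : K[X][X]) (z : (K × K) × (K × K)) (t : ℕ) :
    ((skew a₀ b₀ a₁ b₁)^[t] z).1 = (lineMap a₀ b₀)^[t] z.1 := by
  induction t with
  | zero => rfl
  | succ t ih =>
    rw [Function.iterate_succ_apply', Function.iterate_succ_apply', ← ih]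
    rfl

theorem forb_eq (a₀ b₀ : K[X]) (a₁ b₁ : K[X][X]) (P Q : K × K) (t : ℕ) :
    Pool.Agent.MP_b6294e_wc.forb a₀ b₀ (xDegree a₁ b₁) a₁ b₁ P Q t =
      ((skew a₀ b₀ a₁ b₁)^[t] (P, Q)).2 := by
  induction t with
  | zero => rfl
  | succ t ih =>
    rw [Function.iterate_succ_apply']
    simp only [Pool.Agent.MP_b6294e_wc.forb]
    rw [ih, porb_eq]
    unfold skew
    simp only
    rw [← skew_fst a₀ b₀ a₁ b₁ (P, Q) t]
    rfl

theorem le_xDegree (a b : K[X][X]) (j : ℕ) :
    (a.coeff j).natDegree ≤ xDegree a b ∧ (b.coeff j).natDegree ≤ xDegree a b := by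
  classical
  have key : ∀ i ∈ a.support ∪ b.support,
      max (a.coeff i).natDegree (b.coeff i).natDegree ≤ xDegree a b := by
    intro i hi
    unfold xDegree
    exact Finset.le_sup (f := fun j => max (a.coeff j).natDegree (b.coeff j).natDegree) hi
  by_cases hj : j ∈ a.support ∪ b.support
  · exact ⟨(le_max_left _ _).trans (key j hj), (le_max_right _ _).trans (key j hj)⟩
  · rw [Finset.mem_union, mem_support_iff, mem_support_iff] at hj
    push Not at hj
    rw [hj.1, hj.2, natDegree_zero]
    exact ⟨Nat.zero_le _, Nat.zero_le _⟩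

/-- Let `K` be an algebraic closure of the field of rational numbers. Let `a₀ / b₀` be a rational
function of `x` and `a₁ / b₁` a rational function of `x` and `y`, of degrees at least two in `x`
and in `y`. Suppose that the base map `a₀ / b₀` has a critical point `κ` which is periodic or has
an infinite orbit, that no contracted fibre lies over a point of the orbit of `κ`, that the
contracted fibres lie over preperiodic points if `κ` has an infinite orbit, and that no
iterate of the skew product is the identity on the fibre over `κ`. Then for every nonzero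
polynomial `G` there is a point of the plane whose orbit under the skew product is well defined,
avoids the curve `G = 0` and is Zariski dense. -/
theorem result (K : Type u) [Field K] [IsAlgClosed K] [CharZero K]
    (halg : Algebra.IsAlgebraic ℚ K) (a₀ b₀ : K[X]) (a₁ b₁ : K[X][X])
    (hco₀ : IsCoprime a₀ b₀) (hdeg₀ : 2 ≤ deg a₀ b₀)
    (hco₁ : IsCoprime (a₁.map (algebraMap K[X] (RatFunc K)))
      (b₁.map (algebraMap K[X] (RatFunc K))))
    (hdeg₁ : 2 ≤ deg a₁ b₁)
    (κ : K × K) (hκ : κ ≠ 0) (hcrit : Critical a₀ b₀ κ)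
    (hnsp : Periodic a₀ b₀ κ ∨ ¬ Preperiodic a₀ b₀ κ)
    (hcon : ∀ P : K × K, P ≠ 0 → Contracted a₁ b₁ P →
      (∀ t, ¬ Same ((lineMap a₀ b₀)^[t] κ) P) ∧ (Preperiodic a₀ b₀ κ ∨ Preperiodic a₀ b₀ P))
    (hid : ∀ s, 0 < s → ∃ Q : K × K,
      ¬ (Same κ ((skew a₀ b₀ a₁ b₁)^[s] (κ, Q)).1 ∧ Same Q ((skew a₀ b₀ a₁ b₁)^[s] (κ, Q)).2))
    (G : K[X][X]) (hG : G ≠ 0) :
    ∃ x y : ℕ → K,
      (∀ t, b₀.eval (x t) ≠ 0 ∧ x (t + 1) = a₀.eval (x t) / b₀.eval (x t)) ∧
      (∀ t, b₁.evalEval (x t) (y t) ≠ 0 ∧
        y (t + 1) = a₁.evalEval (x t) (y t) / b₁.evalEval (x t) (y t)) ∧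
      (∀ t, G.evalEval (x t) (y t) ≠ 0) ∧
      ∀ P : K[X][X], (∀ t, P.evalEval (x t) (y t) = 0) → P = 0 := by
  classical
  have hC : ∀ P, Pool.Agent.MP_b6294e_wc.Contracted (xDegree a₁ b₁) a₁ b₁ P →
      Contracted a₁ b₁ P := fun P hP => dependent_of_wr _ _ hP
  have key : Pool.Agent.MP_b6294e_wc.HasDense a₀ b₀ a₁ b₁ := by
    by_cases hpre : Preperiodic a₀ b₀ κ
    · obtain ⟨n, hn, hper⟩ := hnsp.resolve_right (not_not.mpr hpre)
      refine Pool.Agent.MP_b6294e_wc.periodic_proj halg a₀ b₀ a₁ b₁ hco₀ hdeg₀ (xDegree a₁ b₁)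
        (fun j => (le_xDegree a₁ b₁ j).1) (fun j => (le_xDegree a₁ b₁ j).2) κ hκ hcrit n hn ?_ ?_ ?_
      · rw [porb_eq]
        exact hper
      · intro t ht
        refine (hcon _ (Pool.Agent.MP_b6294e_wc.porb_ne a₀ b₀ hco₀ κ hκ t) (hC _ ht)).1 t ?_
        rw [porb_eq]
        exact rfl
      · intro S hS hnS
        obtain ⟨Q, hQ⟩ := hid S hS
        refine ⟨Q, fun h => hQ ⟨?_, ?_⟩⟩
        · rw [skew_fst]
          obtain ⟨k, rfl⟩ := hnS
          have h1 : ∀ k, Pool.Agent.MP_b6294e_wc.Same (Pool.Agent.MP_b6294e_wc.porb a₀ b₀ κ 0)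
              (Pool.Agent.MP_b6294e_wc.porb a₀ b₀ κ (n * k)) := by
            intro k
            induction k with
            | zero => exact rfl
            | succ k ih =>
              have hne := Pool.Agent.MP_b6294e_wc.porb_ne a₀ b₀ hco₀ κ hκ
              have h2 : Pool.Agent.MP_b6294e_wc.Same (Pool.Agent.MP_b6294e_wc.porb a₀ b₀ κ 0)
                  (Pool.Agent.MP_b6294e_wc.porb a₀ b₀ κ n) := by
                rw [porb_eq, porb_eq]
                exact hper
              have h3 := Pool.Agent.MP_b6294e_wc.porb_same_add a₀ b₀ hco₀ κ hκ 0 n h2 (n * k)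
              rw [zero_add] at h3
              have h4 := ih.trans (hne _) (hne _) (hne _) h3
              rw [mul_add, mul_one, add_comm]
              exact h4
          have h5 := h1 k
          rw [porb_eq, porb_eq] at h5
          exact h5
        · rw [← forb_eq]
          exact h
    · exact Pool.Agent.MP_b6294e_wc.wandering_proj halg a₀ b₀ a₁ b₁ hco₀
        (le_trans (by norm_num) hdeg₀) (xDegree a₁ b₁)
        (fun j => (le_xDegree a₁ b₁ j).1) (fun j => (le_xDegree a₁ b₁ j).2) hco₁ hdeg₁ κ hκ hcrit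
        (fun h => hpre (by
          obtain ⟨i, j, hij, h1⟩ := h
          rw [porb_eq, porb_eq] at h1
          exact ⟨i, j, hij, h1⟩))
        (fun β hβ hcβ => by
          obtain ⟨i, j, hij, h1⟩ := (hcon β hβ (hC β hcβ)).2.resolve_left hpre
          refine ⟨i, j, hij, ?_⟩
          rw [porb_eq, porb_eq]
          exact h1)
  obtain ⟨x, y, h1, h2, h3, h4, h5, h6⟩ := key G hG
  exact ⟨x, y, fun t => ⟨h1 t, by rw [← h2 t, mul_div_cancel_left₀ _ (h1 t)]⟩,
    fun t => ⟨h3 t, by rw [← h4 t, mul_div_cancel_left₀ _ (h3 t)]⟩, h5, h6⟩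

end Pool.Agent.Results.MP_b6294e_ag.RationalSkewProducts
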